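import Pool.Agent.Lib_helper52.EPS.Defs

set_option autoImplicit false

namespace Pool.Agent.EPS

open MeasureTheory Set Filter Topology

/-- the rotation as a linear map -/
def ro_map (c s : ℝ) : (ℝ × ℝ) →ₗ[ℝ] (ℝ × ℝ) where
  toFun p := (c * p.1 - s * p.2, s * p.1 + c * p.2)
  map_add' p q := by
    ext
    · simp only [Prod.fst_add, Prod.snd_add]; ring
    · simp only [Prod.fst_add, Prod.snd_add]; ring
  map_smul' r p := by
    ext
    · simp only [Prod.smul_fst, Prod.smul_snd, smul_eq_mul, RingHom.id_apply]; ring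
    · simp only [Prod.smul_fst, Prod.smul_snd, smul_eq_mul, RingHom.id_apply]; ring

theorem ro_apply (c s : ℝ) (p : ℝ × ℝ) :
    ro_map c s p = (c * p.1 - s * p.2, s * p.1 + c * p.2) := rfl

theorem ro_det (c s : ℝ) : LinearMap.det (ro_map c s) = c ^ 2 + s ^ 2 := by
  rw [← LinearMap.det_toMatrix (Module.Basis.finTwoProd ℝ), Matrix.det_fin_two]
  simp only [LinearMap.toMatrix_apply, Module.Basis.finTwoProd_zero, Module.Basis.finTwoProd_one,
    ro_apply]
  simp
  ring

/-- rotations preserve the area -/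
theorem rot_mp (c s : ℝ) (h : c ^ 2 + s ^ 2 = 1) : ∃ e : (ℝ × ℝ) ≃ᵐ (ℝ × ℝ),
    (∀ p, e p = (c * p.1 - s * p.2, s * p.1 + c * p.2)) ∧
      MeasurePreserving e volume volume := by
  have hc : Continuous (fun p : ℝ × ℝ => (c * p.1 - s * p.2, s * p.1 + c * p.2)) := by fun_prop
  have hc2 : Continuous (fun p : ℝ × ℝ => (c * p.1 + s * p.2, -s * p.1 + c * p.2)) := by fun_prop
  let e : (ℝ × ℝ) ≃ᵐ (ℝ × ℝ) :=
    { toFun := fun p => (c * p.1 - s * p.2, s * p.1 + c * p.2)
      invFun := fun p => (c * p.1 + s * p.2, -s * p.1 + c * p.2)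
      left_inv := by
        intro p
        ext
        · show c * (c * p.1 - s * p.2) + s * (s * p.1 + c * p.2) = p.1
          linear_combination p.1 * h
        · show -s * (c * p.1 - s * p.2) + c * (s * p.1 + c * p.2) = p.2
          linear_combination p.2 * h
      right_inv := by
        intro p
        ext
        · show c * (c * p.1 + s * p.2) - s * (-s * p.1 + c * p.2) = p.1
          linear_combination p.1 * h
        · show s * (c * p.1 + s * p.2) + c * (-s * p.1 + c * p.2) = p.2
          linear_combination p.2 * h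
      measurable_toFun := hc.measurable
      measurable_invFun := hc2.measurable }
  refine ⟨e, fun p => rfl, e.measurable, ?_⟩
  have hdet : LinearMap.det (ro_map c s) = 1 := by rw [ro_det, h]
  have h1 := Measure.map_linearMap_addHaar_eq_smul_addHaar (volume : Measure (ℝ × ℝ))
    (f := ro_map c s) (by rw [hdet]; exact one_ne_zero)
  rw [hdet] at h1
  have h2 : (⇑e : ℝ × ℝ → ℝ × ℝ) = ⇑(ro_map c s) := by
    funext p
    rfl
  rw [h2, h1]
  simp

end Pool.Agent.EPS
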